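import Pool.Agent.W928.MW.Stm

set_option autoImplicit false

open Finset MeasureTheory

namespace Pool.Agent.W884.MWMAX

open Pool.Agent.W928.MW

theorem e_add (x y : ℝ) : e (x + y) = e x * e y := by
  unfold e
  rw [← Complex.exp_add]
  congr 1
  push_cast
  ring

theorem e_zero : e 0 = 1 := by simp [e]

theorem norm_e (x : ℝ) : ‖e x‖ = 1 := by
  unfold e
  have : 2 * (Real.pi : ℂ) * Complex.I * (x : ℂ) = ((2 * Real.pi * x : ℝ) : ℂ) * Complex.I := by
    push_cast; ring
  rw [this, Complex.norm_exp_ofReal_mul_I]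

theorem e_nat_mul (x : ℝ) (n : ℕ) : e ((n : ℝ) * x) = e x ^ n := by
  unfold e
  rw [← Complex.exp_nat_mul]
  congr 1
  push_cast
  ring

theorem e_int (n : ℤ) : e (n : ℝ) = 1 := by
  unfold e
  rw [Complex.exp_eq_one_iff]
  exact ⟨n, by push_cast; ring⟩

theorem e_eq_one_iff (x : ℝ) : e x = 1 ↔ ∃ n : ℤ, x = n := by
  constructor
  · intro h
    unfold e at h
    rw [Complex.exp_eq_one_iff] at h
    obtain ⟨n, hn⟩ := h
    refine ⟨n, ?_⟩
    have h2 : (2 * (Real.pi : ℂ) * Complex.I) ≠ 0 := Complex.two_pi_I_ne_zero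
    have h3 : (2 * (Real.pi : ℂ) * Complex.I) * (x : ℂ) = (2 * (Real.pi : ℂ) * Complex.I) * (n : ℂ) := by
      rw [hn]; ring
    have h4 := mul_left_cancel₀ h2 h3
    exact_mod_cast h4
  · rintro ⟨n, rfl⟩
    exact e_int n

theorem norm_e_sub_one (x : ℝ) : ‖e x - 1‖ = 2 * |Real.sin (Real.pi * x)| := by
  have h : e x = Complex.exp (Complex.I * ((2 * Real.pi * x : ℝ) : ℂ)) := by
    unfold e; congr 1; push_cast; ring
  rw [h, Complex.norm_exp_I_mul_ofReal_sub_one, Real.norm_eq_abs, abs_mul, abs_of_pos (by norm_num : (0:ℝ) < 2)]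
  congr 3
  ring

/-- lower bound for `|e(-r/N) - 1|` -/
theorem lower (N r : ℕ) (hr : 1 ≤ r) (hrN : r < N) :
    1 / ((N : ℝ) * ‖e (-((r : ℝ) / N)) - 1‖) * 2 ≤ (1 / (r : ℝ) + 1 / ((N - r : ℕ) : ℝ)) / 2 := by
  have hN : (0 : ℝ) < N := by exact_mod_cast (by omega : 0 < N)
  have hr0 : (0 : ℝ) < r := by exact_mod_cast hr
  have hs0 : (0 : ℝ) < ((N - r : ℕ) : ℝ) := by exact_mod_cast (by omega : 0 < N - r)
  have hsum : ((N - r : ℕ) : ℝ) = (N : ℝ) - r := by
    rw [Nat.cast_sub hrN.le]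
  rw [norm_e_sub_one]
  have hsin : |Real.sin (Real.pi * (-((r : ℝ) / N)))| = |Real.sin (Real.pi * ((r : ℝ) / N))| := by
    rw [mul_neg, Real.sin_neg, abs_neg]
  rw [hsin]
  have hpi := Real.pi_pos
  rcases le_total (2 * r) N with h | h
  · have h' : 2 * (r : ℝ) ≤ N := by exact_mod_cast h
    have h1 : 2 / Real.pi * (Real.pi * ((r : ℝ) / N)) ≤ Real.sin (Real.pi * ((r : ℝ) / N)) := by
      apply Real.mul_le_sin
      · positivity
      · have : (r : ℝ) / N ≤ 1 / 2 := by
          rw [div_le_div_iff₀ hN (by norm_num)]; linarith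
        nlinarith
    have h2 : 2 / Real.pi * (Real.pi * ((r : ℝ) / N)) = 2 * (r : ℝ) / N := by
      field_simp
    rw [h2] at h1
    have h3 : 2 * (r : ℝ) / N ≤ |Real.sin (Real.pi * ((r : ℝ) / N))| := h1.trans (le_abs_self _)
    have h4 : 4 * (r : ℝ) ≤ (N : ℝ) * (2 * |Real.sin (Real.pi * ((r : ℝ) / N))|) := by
      rw [div_le_iff₀ hN] at h3
      linarith
    have h5 : 1 / ((N : ℝ) * (2 * |Real.sin (Real.pi * ((r : ℝ) / N))|)) ≤ 1 / (4 * (r : ℝ)) :=
      one_div_le_one_div_of_le (by positivity) h4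
    have h6 : (0 : ℝ) ≤ 1 / ((N - r : ℕ) : ℝ) := by positivity
    have h7 : 1 / (4 * (r : ℝ)) * 2 = (1 / (r : ℝ)) / 2 := by field_simp; norm_num
    linarith
  · have h' : (N : ℝ) ≤ 2 * r := by exact_mod_cast h
    have hs : Real.sin (Real.pi * ((r : ℝ) / N)) = Real.sin (Real.pi * (((N - r : ℕ) : ℝ) / N)) := by
      rw [← Real.sin_pi_sub]
      congr 1
      rw [hsum]
      field_simp
    rw [hs]
    set s : ℝ := ((N - r : ℕ) : ℝ) with hsdef
    have h1 : 2 / Real.pi * (Real.pi * (s / N)) ≤ Real.sin (Real.pi * (s / N)) := by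
      apply Real.mul_le_sin
      · positivity
      · have : s / N ≤ 1 / 2 := by
          rw [div_le_div_iff₀ hN (by norm_num)]; linarith
        nlinarith
    have h2 : 2 / Real.pi * (Real.pi * (s / N)) = 2 * s / N := by
      field_simp
    rw [h2] at h1
    have h3 : 2 * s / N ≤ |Real.sin (Real.pi * (s / N))| := h1.trans (le_abs_self _)
    have h4 : 4 * s ≤ (N : ℝ) * (2 * |Real.sin (Real.pi * (s / N))|) := by
      rw [div_le_iff₀ hN] at h3
      linarith
    have h5 : 1 / ((N : ℝ) * (2 * |Real.sin (Real.pi * (s / N))|)) ≤ 1 / (4 * s) :=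
      one_div_le_one_div_of_le (by positivity) h4
    have h6 : (0 : ℝ) ≤ 1 / (r : ℝ) := by positivity
    have h7 : 1 / (4 * s) * 2 = (1 / s) / 2 := by field_simp; norm_num
    linarith

noncomputable def c (N M r : ℕ) : ℂ := (1 / (N : ℂ)) * ∑ m ∈ Icc 1 M, e (-((r : ℝ) / N)) ^ m

theorem c_zero (N M : ℕ) (hN : 1 ≤ N) (hM : M ≤ N) : ‖c N M 0‖ ≤ 1 := by
  have hN' : (0 : ℝ) < N := by exact_mod_cast hN
  unfold c
  simp only [Nat.cast_zero, zero_div, neg_zero, e_zero, one_pow, sum_const, Nat.card_Icc,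
    add_tsub_cancel_right, nsmul_eq_mul, mul_one, norm_mul, norm_div, norm_one, Complex.norm_natCast]
  rw [one_div, inv_mul_le_iff₀ hN', mul_one]
  exact_mod_cast hM

theorem c_pos (N M r : ℕ) (hr : 1 ≤ r) (hrN : r < N) :
    ‖c N M r‖ ≤ (1 / (r : ℝ) + 1 / ((N - r : ℕ) : ℝ)) / 2 := by
  refine le_trans ?_ (lower N r hr hrN)
  have hN : (0 : ℝ) < N := by exact_mod_cast (by omega : 0 < N)
  set w := e (-((r : ℝ) / N)) with hw
  have hw1 : w ≠ 1 := by
    intro h
    rw [hw, e_eq_one_iff] at h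
    obtain ⟨n, hn⟩ := h
    have h0 : (0 : ℝ) < (r : ℝ) / N := by
      have : (0 : ℝ) < r := by exact_mod_cast hr
      positivity
    have h1 : (r : ℝ) / N < 1 := by
      rw [div_lt_one hN]; exact_mod_cast hrN
    have h2 : (n : ℝ) < 0 := by linarith
    have h3 : (-1 : ℝ) < n := by linarith
    have h4 : n < 0 := by exact_mod_cast h2
    have h5 : -1 < n := by exact_mod_cast h3
    omega
  have hwn : ‖w‖ = 1 := norm_e _
  have hsum : ∑ m ∈ Icc 1 M, w ^ m = w * ((w ^ M - 1) / (w - 1)) := by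
    have hsum' : ∀ M : ℕ, ∑ m ∈ Icc 1 M, w ^ m = ∑ i ∈ range M, w ^ (i + 1) := by
      intro M
      induction M with
      | zero => simp
      | succ M ih => rw [Finset.sum_Icc_succ_top (by omega), ih, sum_range_succ]
    rw [← geom_sum_eq hw1, mul_sum, hsum']
    refine sum_congr rfl fun i _ => ?_
    rw [pow_succ, mul_comm]
  unfold c
  rw [← hw, hsum]
  simp only [norm_mul, norm_div, norm_one, Complex.norm_natCast, hwn, one_mul]
  have h2 : ‖w ^ M - 1‖ ≤ 2 := by
    refine (norm_sub_le _ _).trans ?_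
    rw [norm_pow, hwn, one_pow, norm_one]; norm_num
  have h3 : 0 < ‖w - 1‖ := norm_pos_iff.mpr (sub_ne_zero.mpr hw1)
  calc 1 / (N : ℝ) * (‖w ^ M - 1‖ / ‖w - 1‖) ≤ 1 / (N : ℝ) * (2 / ‖w - 1‖) := by gcongr
    _ = 1 / ((N : ℝ) * ‖w - 1‖) * 2 := by field_simp

theorem orth (N M n : ℕ) (hN : 1 ≤ N) (hn : n ∈ Icc 1 N) (hM : M ≤ N) :
    ∑ r ∈ range N, c N M r * e ((r : ℝ) / N * n) = if n ≤ M then 1 else 0 := by
  have hN' : (N : ℂ) ≠ 0 := by exact_mod_cast (by omega : N ≠ 0)
  have hNR : (0 : ℝ) < N := by exact_mod_cast hN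
  rw [mem_Icc] at hn
  have key : ∀ m ∈ Icc 1 M, ∑ r ∈ range N, e (-((r : ℝ) / N)) ^ m * e ((r : ℝ) / N * n)
      = if m = n then (N : ℂ) else 0 := by
    intro m hm
    rw [mem_Icc] at hm
    have hterm : ∀ r ∈ range N, e (-((r : ℝ) / N)) ^ m * e ((r : ℝ) / N * n)
        = (e (((n : ℝ) - m) / N)) ^ r := by
      intro r _
      rw [← e_nat_mul, ← e_add, ← e_nat_mul]
      congr 1
      ring
    rw [sum_congr rfl hterm]
    split_ifs with h
    · subst h
      simp [e_zero]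
    · have hz : e (((n : ℝ) - m) / N) ≠ 1 := by
        intro hz
        rw [e_eq_one_iff] at hz
        obtain ⟨j, hj⟩ := hz
        rw [div_eq_iff hNR.ne'] at hj
        have hj' : (n : ℤ) - m = j * N := by exact_mod_cast hj
        have hj0 : j ≠ 0 := by
          rintro rfl
          apply h
          have : (n : ℤ) - m = 0 := by simpa using hj'
          omega
        have habs : |(n : ℤ) - m| < N := by
          rw [abs_lt]; constructor <;> omega
        rw [hj', abs_mul, Nat.abs_cast] at habs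
        have : 1 ≤ |j| := Int.one_le_abs hj0
        have hNz : (0 : ℤ) < N := by exact_mod_cast hN
        nlinarith
      rw [geom_sum_eq hz]
      have : e (((n : ℝ) - m) / N) ^ N = 1 := by
        rw [← e_nat_mul]
        have : (N : ℝ) * (((n : ℝ) - m) / N) = (((n : ℤ) - m : ℤ) : ℝ) := by
          push_cast
          field_simp
        rw [this, e_int]
      rw [this, sub_self, zero_div]
  have : ∑ r ∈ range N, c N M r * e ((r : ℝ) / N * n)
      = (1 / (N : ℂ)) * ∑ m ∈ Icc 1 M, ∑ r ∈ range N, e (-((r : ℝ) / N)) ^ m * e ((r : ℝ) / N * n) := by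
    rw [sum_comm, mul_sum]
    refine sum_congr rfl fun r _ => ?_
    unfold c
    rw [mul_assoc, sum_mul]
  rw [this, sum_congr rfl key, sum_ite_eq']
  by_cases h : n ≤ M
  · rw [if_pos (mem_Icc.mpr ⟨hn.1, h⟩), if_pos h]
    field_simp
  · rw [if_neg (fun hh => h (mem_Icc.mp hh).2), if_neg h, mul_zero]

theorem expand (k N M : ℕ) (t ξ : ℝ) (hN : 1 ≤ N) (hM : M ≤ N) :
    sm k M t ξ = ∑ r ∈ range N, c N M r * sm k N t (ξ + (r : ℝ) / N) := by
  have h1 : ∑ r ∈ range N, c N M r * sm k N t (ξ + (r : ℝ) / N)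
      = ∑ n ∈ Icc 1 N, e (t * (n : ℝ) ^ k + ξ * n) * ∑ r ∈ range N, c N M r * e ((r : ℝ) / N * n) := by
    simp only [mul_sum]
    rw [sum_comm]
    refine sum_congr rfl fun r _ => ?_
    unfold sm
    rw [mul_sum]
    refine sum_congr rfl fun n _ => ?_
    have : t * (n : ℝ) ^ k + (ξ + (r : ℝ) / N) * n = (t * (n : ℝ) ^ k + ξ * n) + (r : ℝ) / N * n := by ring
    rw [this, e_add]
    ring
  rw [h1]
  have h2 : ∀ n ∈ Icc 1 N, e (t * (n : ℝ) ^ k + ξ * n) * ∑ r ∈ range N, c N M r * e ((r : ℝ) / N * n)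
      = if n ≤ M then e (t * (n : ℝ) ^ k + ξ * n) else 0 := by
    intro n hn
    rw [orth N M n hN hn hM]
    split_ifs <;> simp
  rw [sum_congr rfl h2, ← sum_filter]
  unfold sm
  refine sum_congr ?_ fun _ _ => rfl
  ext n
  simp only [mem_filter, mem_Icc]
  omega

theorem t : Pool.Agent.W928.MW.S_MAX := by
  intro k N M t K hN hM hK ξ
  have hK0 : 0 ≤ K := (norm_nonneg _).trans (hK 0)
  have hlog : 0 ≤ Real.log N := Real.log_natCast_nonneg N
  rw [expand k N M t ξ hN hM]
  have h1 : ‖∑ r ∈ range N, c N M r * sm k N t (ξ + (r : ℝ) / N)‖ ≤ (∑ r ∈ range N, ‖c N M r‖) * K := by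
    refine (norm_sum_le _ _).trans ?_
    rw [sum_mul]
    refine sum_le_sum fun r _ => ?_
    rw [norm_mul]
    exact mul_le_mul_of_nonneg_left (hK _) (norm_nonneg _)
  have h2 : ∑ r ∈ range N, ‖c N M r‖ ≤ 2 + Real.log N := by
    obtain ⟨N', rfl⟩ : ∃ N', N = N' + 1 := ⟨N - 1, by omega⟩
    rw [sum_range_succ']
    have h3 : ∑ i ∈ range N', ‖c (N' + 1) M (i + 1)‖ ≤ ∑ i ∈ range N', 1 / ((i : ℝ) + 1) := by
      calc ∑ i ∈ range N', ‖c (N' + 1) M (i + 1)‖
          ≤ ∑ i ∈ range N', (1 / ((i + 1 : ℕ) : ℝ) + 1 / ((N' + 1 - (i + 1) : ℕ) : ℝ)) / 2 := by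
            refine sum_le_sum fun i hi => ?_
            rw [mem_range] at hi
            exact c_pos (N' + 1) M (i + 1) (by omega) (by omega)
        _ = (∑ i ∈ range N', 1 / ((i : ℝ) + 1) + ∑ i ∈ range N', 1 / ((N' - i : ℕ) : ℝ)) / 2 := by
            rw [← sum_add_distrib, sum_div]
            refine sum_congr rfl fun i _ => ?_
            rw [Nat.add_sub_add_right]
            push_cast
            ring
        _ = ∑ i ∈ range N', 1 / ((i : ℝ) + 1) := by
            have : ∑ i ∈ range N', 1 / ((N' - i : ℕ) : ℝ) = ∑ i ∈ range N', 1 / ((i : ℝ) + 1) := by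
              rw [← sum_range_reflect]
              refine sum_congr rfl fun i hi => ?_
              rw [mem_range] at hi
              congr 1
              have : N' - (N' - 1 - i) = i + 1 := by omega
              rw [this]
              push_cast
              ring
            rw [this]; ring
    have h4 : ∑ i ∈ range N', 1 / ((i : ℝ) + 1) ≤ 1 + Real.log ((N' + 1 : ℕ) : ℝ) := by
      have h5 := harmonic_le_one_add_log N'
      have h6 : ((harmonic N' : ℚ) : ℝ) = ∑ i ∈ range N', 1 / ((i : ℝ) + 1) := by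
        unfold harmonic
        push_cast
        refine sum_congr rfl fun i _ => ?_
        rw [one_div]
      rw [h6] at h5
      refine h5.trans ?_
      rcases Nat.eq_zero_or_pos N' with h0 | h0
      · subst h0; simp
      · have : Real.log (N' : ℝ) ≤ Real.log ((N' + 1 : ℕ) : ℝ) := by
          apply Real.log_le_log
          · exact_mod_cast h0
          · push_cast; linarith
        linarith
    have h7 := c_zero (N' + 1) M (by omega) hM
    linarith
  calc ‖∑ r ∈ range N, c N M r * sm k N t (ξ + (r : ℝ) / N)‖ ≤ (∑ r ∈ range N, ‖c N M r‖) * K := h1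
    _ ≤ (4 + 4 * Real.log N) * K := by
        apply mul_le_mul_of_nonneg_right _ hK0
        linarith

end Pool.Agent.W884.MWMAX
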